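import Pool.Agent.H95.ILV.Targets

/-! row MAIN of MP_de9001_an (board ilv): assembly -/

set_option autoImplicit false

open MeasureTheory AddCircle Filter Topology
open Pool.Agent.H87.Synth Pool.Agent.H23.Synth Pool.Agent.H95.ILV

namespace Pool.Agent.H38.ILV

lemma dense_one (r : Setoid ℤ) (C : ℝ) (hC : C ≤ 1) (h : Dense r C) : Dense r 1 := by
  intro X0
  obtain ⟨X, hX, hXX⟩ := h (max X0 3)
  refine ⟨X, le_trans (le_max_left _ _) hX, fun x hx hx2 => ?_⟩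
  obtain ⟨M, hM, h1, h2⟩ := hXX x hx hx2
  refine ⟨M, hM, h1, h2.trans ?_⟩
  have h3 : 3 ≤ x := le_trans (le_trans (le_max_right _ _) hX) hx
  have hl : 0 < Real.log x := Real.log_pos (by linarith)
  have : C * x / Real.log x ≤ 1 * x / Real.log x :=
    div_le_div_of_nonneg_right (mul_le_mul_of_nonneg_right hC (by linarith)) hl.le
  linarith

theorem pf_MAIN (h1 : T_LVS) (h2 : T_APX) (h3 : T_NEG) (h4 : T_GEO) (h5 : T_KH) (h6 : T_REL)
    (h7 : T_SIC) : T_MAIN := by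
  refine ⟨fun r C hD => ?_, ?_, h7⟩
  · by_cases hC : 0 < C
    · exact h2 r (h1 r C hC hD)
    · push Not at hC
      exact h2 r (h1 r 1 one_pos (dense_one r C (by linarith) hD))
  · obtain ⟨c, hg⟩ := h4
    obtain ⟨F, hn, hfin⟩ := h3 c Tt MM uu kk hg
    obtain ⟨x0, hx0⟩ := h5
    refine ⟨rel F (Lev MM kk), hfin, hn, x0, fun x hx => ?_⟩
    obtain ⟨N, hN, ha, hb⟩ := hx0 x hx
    exact ⟨N, (h6 F (Lev MM kk)).1 N hN, ha, hb⟩

end Pool.Agent.H38.ILV
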