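import Pool.Agent.H95.ILV.Targets

/-! row MOD of MP_de9001_an (board ilv) -/

set_option autoImplicit false

open MeasureTheory AddCircle Filter Topology
open Pool.Agent.H87.Synth Pool.Agent.H23.Synth Pool.Agent.H95.ILV

namespace Pool.Agent.H38.ILV

theorem pf_MOD : T_MOD := by
  intro h m
  have hi : Integrable (fun x => (fourier m x : ℂ) • (h : Circ → ℂ) x)
      (haarAddCircle : Measure Circ) := (integrable_coe h).fourier_smul m
  have hae := hi.coeFn_toL1
  refine ⟨hi.toL1 _, fun n => ?_, ?_⟩
  · rw [coeff_def, coeff_def]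
    refine integral_congr_ae ?_
    filter_upwards [hae] with x hx
    rw [hx, smul_eq_mul, ← mul_assoc, ← fourier_add]
    congr 3
    ring
  · rw [Pool.Agent.H87.Synth.norm_eq, Pool.Agent.H87.Synth.norm_eq]
    refine le_of_eq (integral_congr_ae ?_)
    filter_upwards [hae] with x hx
    rw [hx, norm_smul, fourier_norm_apply, one_mul]

end Pool.Agent.H38.ILV
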