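import Pool.Agent.H95.ILV.Targets

/-! row MSR of MP_de9001_an (board ilv) -/

set_option autoImplicit false

open MeasureTheory AddCircle Filter Topology
open Pool.Agent.H87.Synth Pool.Agent.H23.Synth Pool.Agent.H95.ILV

namespace Pool.Agent.H38.ILV

lemma msr_cont_FW (n : ℕ) : Continuous (FW n) := by
  unfold FW
  refine continuous_const.mul ((Continuous.norm ?_).pow 2)
  refine continuous_finsetSum _ fun a _ => ?_
  exact map_continuous (fourier (a : ℤ))

theorem pf_MSR (h1 : T_FWI) (h2 : T_FLO) : T_MSR := by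
  intro t
  have hp : (0 : ℝ) < 2 ^ t := by positivity
  have hi : Integrable (FW (2 ^ t)) (haarAddCircle : Measure Circ) :=
    (msr_cont_FW _).integrable_of_hasCompactSupport (HasCompactSupport.of_compactSpace _)
  have hint : ∫ x, FW (2 ^ t) x ∂(haarAddCircle : Measure Circ) = 1 := by
    have h := h1 (2 ^ t) 0 Nat.one_le_two_pow
    simp only [fourier_zero, mul_one, Int.cast_zero, abs_zero, zero_div, sub_zero] at h
    rw [integral_complex_ofReal] at h
    rw [max_eq_right zero_le_one] at h
    exact_mod_cast h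
  have h3 := mul_meas_ge_le_integral_of_nonneg (ae_of_all _ fun x => by
    show (0 : ℝ) ≤ FW (2 ^ t) x
    unfold FW
    positivity) hi ((2 : ℝ) ^ t / 4)
  rw [hint] at h3
  have h4 : (haarAddCircle : Measure Circ).real {x | rho x ≤ 1 / 2 ^ t} ≤
      (haarAddCircle : Measure Circ).real {x | (2 : ℝ) ^ t / 4 ≤ FW (2 ^ t) x} := by
    refine measureReal_mono (fun x hx => ?_) (measure_ne_top _ _)
    have hx' : rho x ≤ 1 / 2 ^ t := hx
    have := h2 (2 ^ t) x Nat.one_le_two_pow (by
      push_cast
      rw [le_div_iff₀ hp] at hx'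
      linarith)
    push_cast at this
    exact this
  refine h4.trans ?_
  rw [le_div_iff₀ hp]
  linarith

end Pool.Agent.H38.ILV
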