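import Pool.Agent.H95.ILV.Targets

/-! row NEG of MP_de9001_an (board ilv) -/

set_option autoImplicit false

open MeasureTheory AddCircle Filter Topology
open Pool.Agent.H87.Synth Pool.Agent.H23.Synth Pool.Agent.H95.ILV

namespace Pool.Agent.H38.ILV

theorem pf_NEG (h1 : T_GAD) (h2 : T_FNX) (h3 : T_DST) (h4 : T_REL) (h5 : T_GEL) (h6 : T_HBN) :
    T_NEG := by
  intro c T M u κ hg
  obtain ⟨C, hC, hk⟩ := h1
  choose s γ hs using hk
  obtain ⟨f, hf⟩ := h2 C s γ hs c T M u κ hg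
  have hfin := (h4 (coeff f) (Lev M κ)).2 (h5 c T M u κ hg).2.2.2.2.2
  obtain ⟨δ, hδ, hd⟩ := h3 C s γ hC hs c T M u κ f hg hf
  exact ⟨coeff f, h6 (rel (coeff f) (Lev M κ)) f δ hfin (fun m n h => h.1) hδ hd, hfin⟩

end Pool.Agent.H38.ILV
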