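import Pool.Agent.H95.ILV.Targets

/-! row REL of MP_de9001_an (board ilv) -/

set_option autoImplicit false

open MeasureTheory AddCircle Filter Topology
open Pool.Agent.H87.Synth Pool.Agent.H23.Synth Pool.Agent.H95.ILV

namespace Pool.Agent.H38.ILV

theorem pf_REL : T_REL := by
  intro F L
  refine ⟨fun N hN m n h => h.2 N hN, fun hL n => ?_⟩
  obtain ⟨N, hN, hK⟩ := hL (n.natAbs + 1)
  refine (Set.finite_Icc (-(N : ℤ)) N).subset ?_
  intro m hm
  have hr : (rel F L) n m := hm
  have h := (hr.2 N hN).1 (by omega)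
  constructor <;> omega

end Pool.Agent.H38.ILV
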