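import Pool.Agent.H95.ILV.Targets

/-! row SHL of MP_de9001_an (board ilv): one shell -/

set_option autoImplicit false

open MeasureTheory AddCircle Filter Topology
open Pool.Agent.H87.Synth Pool.Agent.H23.Synth Pool.Agent.H95.ILV

namespace Pool.Agent.H38.ILV

lemma cont_ES {ι : Type} (s : Finset ι) (ν : ι → ℤ) (g : ι → ℂ) : Continuous (ES s ν g) := by
  unfold ES
  refine continuous_finsetSum _ fun a _ => ?_
  exact continuous_const.mul (map_continuous (fourier (ν a)))

lemma cont_FW (n : ℕ) : Continuous (FW n) := by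
  unfold FW
  refine continuous_const.mul ((Continuous.norm ?_).pow 2)
  refine continuous_finsetSum _ fun a _ => ?_
  exact map_continuous (fourier (a : ℤ))

lemma FW_nonneg (n : ℕ) (x : Circ) : 0 ≤ FW n x := by
  unfold FW
  positivity

lemma meas_Xs (t : ℕ) : MeasurableSet (Xs t) := by
  have h := continuous_rho.measurable
  exact (measurableSet_lt measurable_const h).inter (measurableSet_le h measurable_const)

theorem pf_SHL (h1 : T_FLO) (h2 : T_MSR) : T_SHL := by
  intro ι s ν g t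
  set μ : Measure Circ := haarAddCircle with hμ
  set J : ℝ := ∫ x, FW (2 ^ t) x * ‖ES s ν g x‖ ^ 2 ∂μ with hJ
  have hcF : Continuous (fun x => FW (2 ^ t) x * ‖ES s ν g x‖ ^ 2) :=
    (cont_FW _).mul ((cont_ES s ν g).norm.pow 2)
  have hiF : Integrable (fun x => FW (2 ^ t) x * ‖ES s ν g x‖ ^ 2) μ :=
    hcF.integrable_of_hasCompactSupport (HasCompactSupport.of_compactSpace _)
  have hF0 : ∀ x, 0 ≤ FW (2 ^ t) x * ‖ES s ν g x‖ ^ 2 := fun x =>
    mul_nonneg (FW_nonneg _ _) (sq_nonneg _)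
  have hJ0 : 0 ≤ J := integral_nonneg hF0
  have hp : (0 : ℝ) < 2 ^ t := by positivity
  have hmX : μ.real (Xs t) ≤ 4 / 2 ^ t := by
    refine (measureReal_mono (fun x hx => ?_) (measure_ne_top _ _)).trans (h2 t)
    exact hx.2
  have key : ∀ u : ℝ, 0 < u → J ≤ u ^ 2 →
      ∫ x in Xs t, ‖ES s ν g x‖ / rho x ∂μ ≤ 8 * u := by
    intro u hu hJu
    have hb : ∀ x ∈ Xs t, ‖ES s ν g x‖ / rho x ≤ 2 ^ t * u +
        4 / u * (FW (2 ^ t) x * ‖ES s ν g x‖ ^ 2) := by
      intro x hx
      obtain ⟨hx1, hx2⟩ := hx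
      have hr : 0 < rho x := lt_trans (by positivity) hx1
      have hF : (2 : ℝ) ^ t / 4 ≤ FW (2 ^ t) x := by
        have := h1 (2 ^ t) x Nat.one_le_two_pow (by
          push_cast
          rw [le_div_iff₀ hp] at hx2
          linarith)
        push_cast at this
        exact this
      have hinv : 1 / rho x ≤ 2 * 2 ^ t := by
        rw [div_le_iff₀ hr]
        rw [div_lt_iff₀ (by positivity), pow_succ] at hx1
        linarith
      set a := ‖ES s ν g x‖ with ha
      have ha0 : 0 ≤ a := norm_nonneg _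
      have e1 : a / rho x ≤ 2 * 2 ^ t * a := by
        rw [div_eq_mul_one_div, mul_comm]
        exact mul_le_mul_of_nonneg_right hinv ha0
      have e2 : 2 ^ t * a ^ 2 ≤ 4 * (FW (2 ^ t) x * a ^ 2) := by
        have := mul_le_mul_of_nonneg_right hF (sq_nonneg a)
        linarith
      have e3 : 4 / u * (FW (2 ^ t) x * a ^ 2) ≥ 2 ^ t * a ^ 2 / u := by
        have : 2 ^ t * a ^ 2 / u ≤ 4 * (FW (2 ^ t) x * a ^ 2) / u :=
          div_le_div_of_nonneg_right e2 hu.le
        calc 4 / u * (FW (2 ^ t) x * a ^ 2) = 4 * (FW (2 ^ t) x * a ^ 2) / u := by ring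
          _ ≥ _ := this
      have e4 : 2 * 2 ^ t * a ≤ 2 ^ t * u + 2 ^ t * a ^ 2 / u := by
        have h5 : 2 ^ t * u + 2 ^ t * a ^ 2 / u - 2 * 2 ^ t * a = 2 ^ t * (u - a) ^ 2 / u := by
          field_simp
          ring
        have h6 : 0 ≤ 2 ^ t * (u - a) ^ 2 / u := by positivity
        linarith
      linarith
    have hi2 : Integrable (fun x => 2 ^ t * u + 4 / u * (FW (2 ^ t) x * ‖ES s ν g x‖ ^ 2))
        (μ.restrict (Xs t)) :=
      (integrable_const _).add ((hiF.restrict).const_mul _)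
    refine (integral_mono_of_nonneg (ae_of_all _ fun x => div_nonneg (norm_nonneg _)
      (rho_nonneg x)) hi2 (ae_restrict_of_forall_mem (meas_Xs t) hb)).trans ?_
    rw [integral_add (integrable_const _) ((hiF.restrict).const_mul _), integral_const,
      integral_const_mul, smul_eq_mul, measureReal_restrict_apply_univ]
    have hle : ∫ x in Xs t, FW (2 ^ t) x * ‖ES s ν g x‖ ^ 2 ∂μ ≤ J :=
      setIntegral_le_integral hiF (ae_of_all _ hF0)
    have g1 : μ.real (Xs t) * (2 ^ t * u) ≤ 4 * u := by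
      calc μ.real (Xs t) * (2 ^ t * u) ≤ 4 / 2 ^ t * (2 ^ t * u) :=
            mul_le_mul_of_nonneg_right hmX (by positivity)
        _ = 4 * u := by field_simp
    have g2 : 4 / u * ∫ x in Xs t, FW (2 ^ t) x * ‖ES s ν g x‖ ^ 2 ∂μ ≤ 4 * u := by
      calc 4 / u * ∫ x in Xs t, FW (2 ^ t) x * ‖ES s ν g x‖ ^ 2 ∂μ ≤ 4 / u * u ^ 2 :=
            mul_le_mul_of_nonneg_left (hle.trans hJu) (by positivity)
        _ = 4 * u := by field_simp
    linarith
  refine le_of_forall_pos_le_add fun ε hε => ?_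
  have hs := Real.sqrt_nonneg J
  have := key (√J + ε / 8) (by positivity) (by
    have h3 := Real.sq_sqrt hJ0
    nlinarith)
  linarith

end Pool.Agent.H38.ILV
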