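import Pool.Agent.H95.ILV.Targets

/-! row VPC of MP_de9001_an (board ilv) -/

set_option autoImplicit false

open MeasureTheory AddCircle Filter Topology
open Pool.Agent.H87.Synth Pool.Agent.H23.Synth Pool.Agent.H95.ILV

namespace Pool.Agent.H38.ILV

lemma vpc_aux (N l : ℕ) (n : ℤ) (hl : 1 ≤ l) :
    (N : ℝ) / l * max 0 (1 - |(n : ℝ)| / (((N - 1 : ℕ) : ℝ) + 1)) = max 0 ((N : ℝ) - |(n : ℝ)|) / l := by
  have hl0 : (0 : ℝ) < l := by exact_mod_cast hl
  rcases Nat.eq_zero_or_pos N with h | h
  · subst h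
    have : max 0 (((0 : ℕ) : ℝ) - |(n : ℝ)|) = 0 := by
      rw [Nat.cast_zero]
      exact max_eq_left (by linarith [abs_nonneg (n : ℝ)])
    rw [this]
    simp
  · have h1 : (((N - 1 : ℕ) : ℝ) + 1) = N := by
      exact_mod_cast Nat.sub_add_cancel h
    have hN : (0 : ℝ) < N := by exact_mod_cast h
    rw [h1]
    have h2 : (N : ℝ) * max 0 (1 - |(n : ℝ)| / N) = max 0 ((N : ℝ) - |(n : ℝ)|) := by
      rw [mul_max_of_nonneg _ _ hN.le, mul_zero]
      congr 1
      field_simp
    rw [← h2]
    ring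

theorem pf_VPC : T_VPC := by
  intro a l n hl
  have hl0 : (0 : ℝ) < l := by exact_mod_cast hl
  rw [VP, coeff_sub, coeff_smul, coeff_smul, coeff_fejerK, coeff_fejerK]
  have h1 := vpc_aux (a + l) l n hl
  have h2 := vpc_aux a l n hl
  have h3 : tz a l n = max 0 (((a + l : ℕ) : ℝ) - |(n : ℝ)|) / l - max 0 ((a : ℝ) - |(n : ℝ)|) / l := by
    unfold tz
    rw [← sub_div, Nat.cast_add]
    set y := |(n : ℝ)| with hy
    rcases le_total y a with h | h
    · rw [max_eq_right (by linarith : (0 : ℝ) ≤ (a : ℝ) - y),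
        max_eq_right (by linarith : (0 : ℝ) ≤ (a : ℝ) + l - y)]
      have e : ((a : ℝ) + l - y - (a - y)) / l = 1 := by
        rw [div_eq_one_iff_eq hl0.ne']
        ring
      rw [e, min_eq_left, max_eq_right zero_le_one]
      rw [le_div_iff₀ hl0]
      linarith
    · rw [max_eq_left (by linarith : (a : ℝ) - y ≤ 0), sub_zero]
      rcases le_total y (a + l) with h' | h'
      · rw [max_eq_right (by linarith : (0 : ℝ) ≤ (a : ℝ) + l - y), min_eq_right,
          max_eq_right]
        · exact div_nonneg (by linarith) hl0.le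
        · rw [div_le_iff₀ hl0]
          linarith
      · rw [max_eq_left (by linarith : (a : ℝ) + l - y ≤ 0), zero_div, max_eq_left]
        refine (min_le_right _ _).trans ?_
        exact div_nonpos_of_nonpos_of_nonneg (by linarith) hl0.le
  rw [h3, ← h1, ← h2]
  push_cast
  ring

end Pool.Agent.H38.ILV
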